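import Pool.Agent.Lib.MP_b1a3a4_al.MVS.LG.Iface

/-!
# Project MVS, part IV, module INJ2 (12.16)
-/

set_option linter.all false

namespace Pool.Agent.Lib.MP_b1a3a4_al.MVS.LG.H57

open Finsupp

variable {n : ℕ} {L : Fin n → Type} [∀ j, Group (L j)]

theorem freeAct_lmJ (j : Fin n) : FreeAct (lmJ L j) := by
  intro t ω h
  have h1 : (Pi.mulSingle j t : ∀ j, L j) * ω = ω := h
  have h2 : (Pi.mulSingle j t : ∀ j, L j) = 1 := by simpa using h1
  have h3 := congrFun h2 j
  simpa using h3

theorem lmJ_comm (i j : Fin n) (hij : i ≠ j) (g : L i) (h : L j) :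
    lmJ L i g * lmJ L j h = lmJ L j h * lmJ L i g := by
  have h1 : (Pi.mulSingle i g : ∀ j, L j) * Pi.mulSingle j h =
      Pi.mulSingle j h * Pi.mulSingle i g := (Pi.mulSingle_commute hij g h).eq
  show lmP (∀ j, L j) (Pi.mulSingle i g) * lmP (∀ j, L j) (Pi.mulSingle j h) =
    lmP (∀ j, L j) (Pi.mulSingle j h) * lmP (∀ j, L j) (Pi.mulSingle i g)
  rw [← map_mul, ← map_mul, h1]

theorem mder_one {w : (∀ j, L j) → L2 (∀ j, L j)} (hw : MDer w) (j : Fin n) (x : ∀ j, L j) :
    w (Function.update x j 1) = 0 := by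
  have h := hw j x 1 1
  rw [mul_one, Pi.mulSingle_one, lm_one] at h
  have h2 : w (Function.update x j 1) + 0 =
      w (Function.update x j 1) + w (Function.update x j 1) := by rw [add_zero]; exact h
  exact (add_left_cancel h2).symm

theorem mder_conj {w : (∀ j, L j) → L2 (∀ j, L j)} (hw : MDer w) (j : Fin n) (x : ∀ j, L j)
    (q p : L j) : w (Function.update x j (q * p * q⁻¹)) =
      w (Function.update x j q) + lm (Pi.mulSingle j q) (w (Function.update x j p)) -
        lm (Pi.mulSingle j (q * p * q⁻¹)) (w (Function.update x j q)) := by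
  have h1 := hw j x (q * p) q⁻¹
  have h2 := hw j x q p
  have h3 := hw j x q⁻¹ q
  rw [inv_mul_cancel, mder_one hw] at h3
  have h4 : w (Function.update x j q⁻¹) =
      - lm (Pi.mulSingle j q⁻¹) (w (Function.update x j q)) := by
    exact eq_neg_of_add_eq_zero_left h3.symm
  rw [h1, h2, h4, map_neg, ← lm_mul, ← Pi.mulSingle_mul, sub_eq_add_neg]

/-- Restriction to a coset of the product of the `N j`. -/
noncomputable def Rg (N : ∀ j, Subgroup (L j)) (g : ∀ j, L j) :
    L2 (∀ j, L j) →L[ℝ] L2 (∀ j, N j) :=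
  pull (fun y => inclN N y * g) (fun y y' h => inclN_inj N (mul_right_cancel h))

@[simp] theorem Rg_apply (N : ∀ j, Subgroup (L j)) (g : ∀ j, L j) (ξ : L2 (∀ j, L j))
    (y : ∀ j, N j) : Rg N g ξ y = ξ (inclN N y * g) := rfl

theorem Rg_zero {N : ∀ j, Subgroup (L j)} {ξ : L2 (∀ j, L j)} (h : ∀ g, Rg N g ξ = 0) :
    ξ = 0 := by
  ext g
  have h1 := congrArg (fun f : L2 (∀ j, N j) => f 1) (h g)
  have h2 : inclN N (1 : ∀ j, N j) * g = g := by
    funext j
    simp [inclN]
  have h3 : Rg N g ξ (1 : ∀ j, N j) = 0 := h1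
  rw [Rg_apply, h2] at h3
  exact h3

theorem Rg_lmJ (N : ∀ j, Subgroup (L j)) (g : ∀ j, L j) (j : Fin n) (p : N j)
    (ξ : L2 (∀ j, L j)) :
    Rg N g (lm (Pi.mulSingle j (p : L j)) ξ) = tr (lmJ (fun j => N j) j p) (Rg N g ξ) := by
  ext u
  have h1 : (lmJ (fun j => N j) j p).symm u = (Pi.mulSingle j p : ∀ j, N j)⁻¹ * u := rfl
  rw [tr_apply, h1, Rg_apply, Rg_apply, lm_apply]
  refine congrArg (fun v => ξ v) (funext fun i => ?_)
  simp only [inclN, Pi.mul_apply, Pi.inv_apply, Subgroup.coe_mul, Subgroup.coe_inv]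
  rw [← mul_assoc]
  congr 3
  by_cases hij : i = j
  · subst hij
    simp
  · rw [Pi.mulSingle_eq_of_ne hij, Pi.mulSingle_eq_of_ne hij]
    rfl

/-- Conjugation by `h` on the product of the `N j`. -/
def cjf (N : ∀ j, Subgroup (L j)) (hN : ∀ j, (N j).Normal) (h : ∀ j, L j) (y : ∀ j, N j) :
    ∀ j, N j := fun i => ⟨h i * y i * (h i)⁻¹, (hN i).conj_mem _ (y i).2 (h i)⟩

/-- Conjugation as a permutation. -/
def cj (N : ∀ j, Subgroup (L j)) (hN : ∀ j, (N j).Normal) (h : ∀ j, L j) :
    Equiv.Perm (∀ j, N j) where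
  toFun := cjf N hN h
  invFun := cjf N hN h⁻¹
  left_inv := by
    intro y
    funext i
    apply Subtype.ext
    simp [cjf, mul_assoc]
  right_inv := by
    intro y
    funext i
    apply Subtype.ext
    simp [cjf, mul_assoc]

theorem cj_symm_val (N : ∀ j, Subgroup (L j)) (hN : ∀ j, (N j).Normal) (h : ∀ j, L j)
    (y : ∀ j, N j) (i : Fin n) :
    (((cj N hN h).symm y i : N i) : L i) = (h i)⁻¹ * y i * h i := by
  show (h⁻¹ i) * y i * (h⁻¹ i)⁻¹ = _
  simp

theorem cj_val (N : ∀ j, Subgroup (L j)) (hN : ∀ j, (N j).Normal) (h : ∀ j, L j)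
    (y : ∀ j, N j) (i : Fin n) :
    (((cj N hN h) y i : N i) : L i) = h i * y i * (h i)⁻¹ := rfl

theorem cj_symm_update (N : ∀ j, Subgroup (L j)) (hN : ∀ j, (N j).Normal) (h : ∀ j, L j)
    (y : ∀ j, N j) (i : Fin n) (p : N i) :
    (cj N hN h).symm (Function.update y i p) =
      Function.update ((cj N hN h).symm y) i ((cj N hN h).symm (Function.update y i p) i) := by
  funext l
  by_cases hl : l = i
  · subst hl
    rw [Function.update_self]
  · rw [Function.update_of_ne hl]
    apply Subtype.ext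
    rw [cj_symm_val, cj_symm_val, Function.update_of_ne hl]

theorem cj_tr (N : ∀ j, Subgroup (L j)) (hN : ∀ j, (N j).Normal) (h : ∀ j, L j)
    (y : ∀ j, N j) (i : Fin n) (ξ : L2 (∀ j, N j)) :
    tr (cj N hN h) (tr (lmJ (fun j => N j) i ((cj N hN h).symm y i)) ξ) =
      tr (lmJ (fun j => N j) i (y i)) (tr (cj N hN h) ξ) := by
  ext u
  rw [tr_apply, tr_apply, tr_apply, tr_apply]
  have h1 : ∀ (p : N i) (v : ∀ j, N j), (lmJ (fun j => N j) i p).symm v =
    (Pi.mulSingle i p : ∀ j, N j)⁻¹ * v := fun _ _ => rfl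
  rw [h1, h1]
  refine congrArg (fun v => ξ v) (funext fun l => ?_)
  apply Subtype.ext
  rw [cj_symm_val]
  simp only [Pi.mul_apply, Pi.inv_apply, Subgroup.coe_mul, Subgroup.coe_inv, cj_symm_val]
  by_cases hl : l = i
  · subst hl
    simp [cj_symm_val, mul_assoc]
  · rw [Pi.mulSingle_eq_of_ne hl, Pi.mulSingle_eq_of_ne hl]
    simp

theorem inclN_update (N : ∀ j, Subgroup (L j)) (y : ∀ j, N j) (j : Fin n) (p : N j) :
    inclN N (Function.update y j p) = Function.update (inclN N y) j (p : L j) := by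
  funext i
  by_cases hi : i = j
  · subst hi
    simp [inclN]
  · simp [inclN, Function.update_of_ne hi]

theorem key_eq (N : ∀ j, Subgroup (L j)) (hN : ∀ j, (N j).Normal)
    {w : (∀ j, L j) → L2 (∀ j, L j)} (hw : MDer w) (g : ∀ j, L j) (j : Fin n) (q : L j)
    (y : ∀ j, N j) :
    Rg N (Pi.mulSingle j q * g) (w (inclN N y)) =
      tr (cj N hN (Pi.mulSingle j q))
        (Rg N g (w (inclN N ((cj N hN (Pi.mulSingle j q)).symm y)))) -
      (tr (lmJ (fun j => N j) j (y j))
        (Rg N (Pi.mulSingle j q * g) (w (Function.update (inclN N y) j q))) -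
        Rg N (Pi.mulSingle j q * g) (w (Function.update (inclN N y) j q))) := by
  set y0 := (cj N hN (Pi.mulSingle j q)).symm y with hy0
  have h0 : inclN N y0 = Function.update (inclN N y) j (q⁻¹ * y j * q) := by
    funext i
    by_cases hi : i = j
    · subst hi
      rw [Function.update_self]
      show ((y0 i : N i) : L i) = _
      rw [hy0, cj_symm_val]
      simp
    · rw [Function.update_of_ne hi]
      show ((y0 i : N i) : L i) = (y i : L i)
      rw [hy0, cj_symm_val, Pi.mulSingle_eq_of_ne hi]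
      simp
  have h1 := mder_conj hw j (inclN N y) q (q⁻¹ * y j * q)
  have h2 : q * (q⁻¹ * (y j : L j) * q) * q⁻¹ = y j := by group
  rw [h2, ← h0] at h1
  have h3 : Function.update (inclN N y) j (y j : L j) = inclN N y := by
    have : (y j : L j) = inclN N y j := rfl
    rw [this, Function.update_eq_self]
  rw [h3] at h1
  have h4 : tr (cj N hN (Pi.mulSingle j q)) (Rg N g (w (inclN N y0))) =
      Rg N (Pi.mulSingle j q * g) (lm (Pi.mulSingle j q) (w (inclN N y0))) := by
    ext u
    rw [tr_apply, Rg_apply, Rg_apply, lm_apply]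
    refine congrArg (fun v => w (inclN N y0) v) (funext fun i => ?_)
    have h5 := cj_symm_val N hN (Pi.mulSingle j q) u i
    show (((cj N hN (Pi.mulSingle j q)).symm u i : N i) : L i) * g i = _
    rw [h5]
    simp only [Pi.mul_apply, Pi.inv_apply, inclN]
    simp only [mul_assoc]
  rw [h4, h1, ← Rg_lmJ, ← map_sub, ← map_sub]
  congr 1
  abel

theorem step (N : ∀ j, Subgroup (L j)) (hN : ∀ j, (N j).Normal)
    {w : (∀ j, L j) → L2 (∀ j, L j)} (hw : MDer w) (g : ∀ j, L j) (j : Fin n) (q : L j)
    (h : PI (lmJ (fun j => N j)) (fun y => Rg N g (w (inclN N y)))) :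
    PI (lmJ (fun j => N j)) (fun y => Rg N (Pi.mulSingle j q * g) (w (inclN N y))) := by
  obtain ⟨a, ha1, ha2⟩ := h
  classical
  refine ⟨fun i y => tr (cj N hN (Pi.mulSingle j q)) (a i ((cj N hN (Pi.mulSingle j q)).symm y)) -
    (if i = j then Rg N (Pi.mulSingle j q * g) (w (Function.update (inclN N y) j q)) else 0),
    ?_, ?_⟩
  · intro i y p
    beta_reduce
    have h1 : a i ((cj N hN (Pi.mulSingle j q)).symm (Function.update y i p)) =
        a i ((cj N hN (Pi.mulSingle j q)).symm y) := by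
      rw [cj_symm_update, ha1]
    rw [h1]
    congr 1
    by_cases hij : i = j
    · subst hij
      rw [if_pos rfl, if_pos rfl, inclN_update, Function.update_idem]
    · rw [if_neg hij, if_neg hij]
  · intro y
    beta_reduce
    rw [key_eq N hN hw g j q y]
    have h2 := ha2 ((cj N hN (Pi.mulSingle j q)).symm y)
    beta_reduce at h2
    rw [h2, map_sum]
    have h3 : ∀ i, tr (lmJ (fun j => N j) i (y i))
        (tr (cj N hN (Pi.mulSingle j q)) (a i ((cj N hN (Pi.mulSingle j q)).symm y)) -
          (if i = j then Rg N (Pi.mulSingle j q * g) (w (Function.update (inclN N y) j q))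
            else 0)) -
        (tr (cj N hN (Pi.mulSingle j q)) (a i ((cj N hN (Pi.mulSingle j q)).symm y)) -
          (if i = j then Rg N (Pi.mulSingle j q * g) (w (Function.update (inclN N y) j q))
            else 0)) =
        tr (cj N hN (Pi.mulSingle j q))
          (tr (lmJ (fun j => N j) i ((cj N hN (Pi.mulSingle j q)).symm y i))
            (a i ((cj N hN (Pi.mulSingle j q)).symm y)) -
          a i ((cj N hN (Pi.mulSingle j q)).symm y)) -
        (if i = j then (tr (lmJ (fun j => N j) j (y j))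
          (Rg N (Pi.mulSingle j q * g) (w (Function.update (inclN N y) j q))) -
          Rg N (Pi.mulSingle j q * g) (w (Function.update (inclN N y) j q))) else 0) := by
      intro i
      rw [map_sub (tr (cj N hN (Pi.mulSingle j q))), cj_tr]
      by_cases hij : i = j
      · subst hij
        rw [if_pos rfl, if_pos rfl, map_sub]
        abel
      · rw [if_neg hij, if_neg hij, sub_zero, sub_zero]
    rw [Finset.sum_congr rfl fun i _ => h3 i, Finset.sum_sub_distrib]
    congr 1
    rw [Finset.sum_ite_eq' Finset.univ j]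
    simp

theorem all_g (N : ∀ j, Subgroup (L j)) (hN : ∀ j, (N j).Normal)
    {w : (∀ j, L j) → L2 (∀ j, L j)} (hw : MDer w)
    (h : PI (lmJ (fun j => N j)) (resN N w)) (g : ∀ j, L j) :
    PI (lmJ (fun j => N j)) (fun y => Rg N g (w (inclN N y))) := by
  classical
  have h1 : ∀ s : Finset (Fin n), ∀ g : ∀ j, L j, (∀ j, j ∉ s → g j = 1) →
      PI (lmJ (fun j => N j)) (fun y => Rg N g (w (inclN N y))) := by
    intro s
    induction s using Finset.induction_on with
    | empty =>
      intro g hg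
      have h2 : g = 1 := funext fun j => hg j (by simp)
      subst h2
      have h3 : (fun y => Rg N (1 : ∀ j, L j) (w (inclN N y))) = resN N w := by
        funext y
        ext u
        rw [Rg_apply, mul_one]
        rfl
      rw [h3]
      exact h
    | insert j s hj ih =>
      intro g hg
      have h2 : g = Pi.mulSingle j (g j) * Function.update g j 1 := by
        funext i
        by_cases hi : i = j
        · subst hi
          simp
        · simp [Function.update_of_ne hi, Pi.mulSingle_eq_of_ne hi]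
      rw [h2]
      refine step N hN hw _ j (g j) (ih _ fun i hi => ?_)
      by_cases hij : i = j
      · subst hij
        simp
      · rw [Function.update_of_ne hij]
        exact hg i (by simp [hi, hij])
  exact h1 Finset.univ g (by simp)

/-- Module INJ2. -/
theorem inj2 (hS : SgapStatement) (hK : KapStatement) : Inj2Statement := by
  intro n L _ N hN hab w hw hPI
  choose a ha b hb hfp using hab
  obtain ⟨hK1, hK2, hK3, hK4⟩ := hK
  -- data on `L`
  have hD : ∀ j, ∃ D : L2 (∀ j, L j) →L[ℝ] L2 (∀ j, L j),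
      (∀ ξ, D (Lap (lmJ L j) (a j) (b j) ξ) = ξ) ∧ ∀ ξ, Lap (lmJ L j) (a j) (b j) (D ξ) = ξ :=
    fun j => hS _ _ (lmJ L j) (freeAct_lmJ j) (a j) (b j) (hfp j)
  choose D hD1 hD2 using hD
  have hKD : KapData (lmJ L) D a b := ⟨lmJ_comm, hD1, hD2⟩
  -- data on `N`
  have hfp' : ∀ j, FreePair (⟨a j, ha j⟩ : N j) ⟨b j, hb j⟩ := by
    intro j x y hxy
    apply hfp j
    have h1 : ∀ x, FreeGroup.lift (fun i : Bool => cond i (a j) (b j)) x =
        (N j).subtype (FreeGroup.lift
          (fun i : Bool => cond i (⟨a j, ha j⟩ : N j) ⟨b j, hb j⟩) x) := by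
      intro x
      have h2 : (FreeGroup.lift (fun i : Bool => cond i (a j) (b j)) : FreeGroup Bool →* L j) =
          (N j).subtype.comp (FreeGroup.lift
            (fun i : Bool => cond i (⟨a j, ha j⟩ : N j) ⟨b j, hb j⟩)) := by
        ext i
        cases i <;> simp
      rw [h2]
      rfl
    rw [h1, h1, hxy]
  have hD' : ∀ j, ∃ D : L2 (∀ j, N j) →L[ℝ] L2 (∀ j, N j),
      (∀ ξ, D (Lap (lmJ (fun j => N j) j) (⟨a j, ha j⟩ : N j) ⟨b j, hb j⟩ ξ) = ξ) ∧
      ∀ ξ, Lap (lmJ (fun j => N j) j) (⟨a j, ha j⟩ : N j) ⟨b j, hb j⟩ (D ξ) = ξ :=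
    fun j => hS _ _ (lmJ (fun j => N j) j) (freeAct_lmJ j) _ _ (hfp' j)
  choose D' hD'1 hD'2 using hD'
  have hKD' : KapData (lmJ (fun j => N j)) D' (fun j => (⟨a j, ha j⟩ : N j))
      (fun j => ⟨b j, hb j⟩) := ⟨lmJ_comm, hD'1, hD'2⟩
  have hKDN : KapData (fun j => (lmJ L j).comp (N j).subtype) D (fun j => (⟨a j, ha j⟩ : N j))
      (fun j => ⟨b j, hb j⟩) :=
    ⟨fun i j hij g h => lmJ_comm i j hij _ _, hD1, hD2⟩
  -- the normalized function vanishes on the product of the `N j`
  have hz : ∀ y : ∀ j, N j, kap (lmJ L) D a b w (inclN N y) = 0 := by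
    intro y
    apply Rg_zero (N := N)
    intro g
    have h1 := hK3 n L (fun j => N j) (fun j => (N j).subtype) (∀ j, L j) (lmJ L) D
      (fun j => (⟨a j, ha j⟩ : N j)) (fun j => ⟨b j, hb j⟩) w y
    have h2 := hK2 n (fun j => N j) (∀ j, L j) (∀ j, N j)
      (fun j => (lmJ L j).comp (N j).subtype) (lmJ (fun j => N j)) D D'
      (fun j => (⟨a j, ha j⟩ : N j)) (fun j => ⟨b j, hb j⟩) hKDN hKD' (Rg N g)
      (fun j p ξ => Rg_lmJ N g j p ξ) (fun x => w (fun j => (N j).subtype (x j))) y
    have h3 : kap (lmJ L) D a b w (inclN N y) =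
        kap (fun j => (lmJ L j).comp (N j).subtype) D (fun j => (⟨a j, ha j⟩ : N j))
          (fun j => ⟨b j, hb j⟩) (fun x => w (fun j => (N j).subtype (x j))) y := h1.symm
    rw [h3, ← h2]
    exact ((hK1 n (fun j => N j) (∀ j, N j) (lmJ (fun j => N j)) D' _ _ hKD').1 _).2
      (all_g N hN hw hPI g) y
  -- it vanishes everywhere
  have hMD : MDer (kap (lmJ L) D a b w) := hK4 n L D a b hKD w hw
  have hall : ∀ s : Finset (Fin n), ∀ x : ∀ j, L j, (∀ j, j ∉ s → x j ∈ N j) →
      kap (lmJ L) D a b w x = 0 := by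
    classical
    intro s
    induction s using Finset.induction_on with
    | empty =>
      intro x hx
      exact hz (fun j => ⟨x j, hx j (by simp)⟩)
    | insert j s hj ih =>
      intro x hx
      have hN0 : ∀ y : L j, y ∈ N j →
          kap (lmJ L) D a b w (Function.update x j y) = 0 := by
        intro y hy
        apply ih
        intro i hi
        by_cases hij : i = j
        · subst hij
          rw [Function.update_self]
          exact hy
        · rw [Function.update_of_ne hij]
          exact hx i (by simp [hi, hij])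
      set v := kap (lmJ L) D a b w x with hv
      have hinv : ∀ y : L j, y ∈ N j → lm (Pi.mulSingle j y) v = v := by
        intro y hy
        have h1 := mder_conj hMD j x (x j) ((x j)⁻¹ * y * x j)
        have h2 : x j * ((x j)⁻¹ * y * x j) * (x j)⁻¹ = y := by group
        have h3 : (x j)⁻¹ * y * x j ∈ N j := by
          have := (hN j).conj_mem y hy (x j)⁻¹
          rwa [inv_inv] at this
        rw [h2, hN0 y hy, hN0 _ h3, Function.update_eq_self, map_zero, add_zero] at h1
        exact (sub_eq_zero.1 h1.symm).symm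
      have hL : Lap (lmJ L j) (a j) (b j) v = 0 := by
        have e1 : tr (lmJ L j (a j)) v = v := hinv _ (ha j)
        have e2 : tr (lmJ L j (a j)⁻¹) v = v := hinv _ ((N j).inv_mem (ha j))
        have e3 : tr (lmJ L j (b j)) v = v := hinv _ (hb j)
        have e4 : tr (lmJ L j (b j)⁻¹) v = v := hinv _ ((N j).inv_mem (hb j))
        unfold Lap
        simp only [ContinuousLinearMap.sub_apply, ContinuousLinearMap.smul_apply,
          ContinuousLinearMap.id_apply, e1, e2, e3, e4]
        module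
      have h5 := hD1 j v
      rw [hL, map_zero] at h5
      exact h5.symm
  exact ((hK1 n L (∀ j, L j) (lmJ L) D a b hKD).1 w).1 fun x => hall Finset.univ x (by simp)

end Pool.Agent.Lib.MP_b1a3a4_al.MVS.LG.H57
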