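import Pool.Agent.Lib.MP_b1a3a4_al.MVS.LG.Iface

/-!
# Project MVS, part IV, module VSL2 (12.25)
-/

set_option linter.all false

namespace Pool.Agent.Lib.MP_b1a3a4_al.MVS.LG.H57

open Finsupp

/-! ### Naturality of `cup` and `ev` -/

theorem cup_map {S V V' : Type} [AddCommGroup V] [AddCommGroup V'] (φ : V →+ V') (n : ℕ) :
    ∀ (w : (Fin n → S) → V) (s : Fin (n + 1) → S),
      cup n (fun t => φ (w t)) s = φ (cup n w s) := by
  induction n with
  | zero =>
    intro w s
    rfl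
  | succ n ih =>
    intro w s
    show cup n (fun t => φ (w (Fin.snoc t (s (Fin.last (n + 1))))) -
      φ (w (Fin.snoc t (s (Fin.castSucc (Fin.last n)))))) (fun i => s (Fin.castSucc i)) = _
    simp only [← map_sub]
    exact ih _ _

theorem ev_map {S V V' : Type} [AddCommGroup V] [AddCommGroup V'] (φ : V →+ V') {q : ℕ}
    (c : (Fin (q + 1) → S) → V) (v : BC S q) : ev (fun t => φ (c t)) v = φ (ev c v) := by
  induction v using Finsupp.induction_linear with
  | zero => simp
  | add f g hf hg => rw [map_add, map_add, map_add, hf, hg]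
  | single a b => rw [ev_single, ev_single, map_zsmul]

theorem ev_cup_map {S V V' : Type} [AddCommGroup V] [AddCommGroup V'] (φ : V →+ V') {q : ℕ}
    (w : (Fin q → S) → V) (v : BC S q) :
    ev (cup q (fun t => φ (w t))) v = φ (ev (cup q w) v) := by
  rw [← ev_map]
  congr 1
  congr 1
  funext s
  exact cup_map φ q w s

/-- a continuous linear map as an additive map -/
noncomputable def toAH {H H' : Type} [NormedAddCommGroup H] [InnerProductSpace ℝ H]
    [NormedAddCommGroup H'] [InnerProductSpace ℝ H'] (A : H →L[ℝ] H') : H →+ H' where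
  toFun := A
  map_zero' := map_zero A
  map_add' := map_add A

/-- evaluation of operators at a vector -/
noncomputable def evalAt {Ω Ω' : Type} (u : L2 Ω) : (L2 Ω →L[ℝ] L2 Ω') →+ L2 Ω' where
  toFun A := A u
  map_zero' := rfl
  map_add' _ _ := rfl

/-! ### `ext` -/

theorem ext_add {S Ω Y : Type} [Group S] (α : S →* Equiv.Perm Ω) (b b' : Y → L2 Ω)
    (v : Y →₀ MonoidAlgebra ℤ S) : ext α (b + b') v = ext α b v + ext α b' v := by
  induction v using Finsupp.induction_linear with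
  | zero => simp
  | add f g hf hg => rw [map_add, map_add, map_add, hf, hg]; abel
  | single y m =>
    induction m using MonoidAlgebra.induction_linear with
    | zero => simp
    | add f g hf hg =>
      rw [Finsupp.single_add, map_add, map_add, map_add, hf, hg]; abel
    | single s a =>
      rw [ext_single, ext_single, ext_single, Pi.add_apply, map_add, smul_add]

theorem ext_smul {S Ω Y : Type} [Group S] (α : S →* Equiv.Perm Ω) (c : ℝ) (b : Y → L2 Ω)
    (v : Y →₀ MonoidAlgebra ℤ S) : ext α (c • b) v = c • ext α b v := by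
  induction v using Finsupp.induction_linear with
  | zero => simp
  | add f g hf hg => rw [map_add, map_add, hf, hg, smul_add]
  | single y m =>
    induction m using MonoidAlgebra.induction_linear with
    | zero => simp
    | add f g hf hg =>
      rw [Finsupp.single_add, map_add, map_add, hf, hg, smul_add]
    | single s a =>
      rw [ext_single, ext_single, Pi.smul_apply, map_smul, smul_comm]

theorem ext_comm {S Ω Y : Type} [Group S] (α : S →* Equiv.Perm Ω) (Q : L2 Ω →L[ℝ] L2 Ω)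
    (hQ : ∀ s ξ, Q (tr (α s) ξ) = tr (α s) (Q ξ)) (b : Y → L2 Ω)
    (v : Y →₀ MonoidAlgebra ℤ S) : ext α (fun y => Q (b y)) v = Q (ext α b v) := by
  induction v using Finsupp.induction_linear with
  | zero => simp
  | add f g hf hg => rw [map_add, map_add, map_add, hf, hg]
  | single y m =>
    induction m using MonoidAlgebra.induction_linear with
    | zero => simp
    | add f g hf hg =>
      rw [Finsupp.single_add, map_add, map_add, map_add, hf, hg]
    | single s a =>
      rw [ext_single, ext_single, map_zsmul, hQ]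

/-! ### Inclusions of components -/

/-- inclusion of the component `y` -/
noncomputable def ic {Y T : Type} (y : Y) [Group T] : L2 T →L[ℝ] L2 (Y × T) :=
  ContinuousLinearMap.adjoint (co y)

open Classical in
theorem ic_apply {Y T : Type} [Group T] (y y' : Y) (ζ : L2 T) (t : T) :
    ic y ζ (y', t) = if y' = y then ζ t else 0 := by
  rw [← inner_bv (y', t) (ic y ζ)]
  unfold ic
  rw [ContinuousLinearMap.adjoint_inner_right]
  by_cases h : y' = y
  · subst h
    rw [if_pos rfl]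
    have h1 : co y' (bv (y', t)) = (bv t : L2 T) := by
      ext s
      rw [co_apply]
      by_cases hs : s = t
      · subst hs
        rw [bv_self, bv_self]
      · rw [bv_ne hs, bv_ne]
        intro h2
        exact hs (Prod.ext_iff.1 h2).2
    rw [h1, inner_bv]
  · rw [if_neg h]
    have h1 : co y (bv (y', t)) = (0 : L2 T) := by
      ext s
      rw [co_apply, bv_ne]
      · rfl
      · intro h2
        exact h (Prod.ext_iff.1 h2).1.symm
    rw [h1, inner_zero_left]

open Classical in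
theorem co_ic {Y T : Type} [Group T] (y y' : Y) (ζ : L2 T) :
    co y' (ic y ζ) = if y' = y then ζ else 0 := by
  ext t
  rw [co_apply, ic_apply]
  split_ifs <;> rfl

theorem rmX_symm {Y T : Type} [Group T] (t h : T) (y : Y) :
    (rmX Y T t).symm (y, h) = (y, h * t) := by
  rw [Equiv.symm_apply_eq]
  show (y, h) = (y, (h * t) * t⁻¹)
  rw [mul_inv_cancel_right]

theorem ic_rm {Y T : Type} [Group T] (y : Y) (t : T) (ζ : L2 T) :
    ic y (rm t ζ) = tr (rmX Y T t) (ic y ζ) := by
  ext p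
  obtain ⟨y', h⟩ := p
  rw [tr_apply, rmX_symm, ic_apply, ic_apply, rm_apply]

theorem norm_pr_le {H : Type} [NormedAddCommGroup H] [InnerProductSpace ℝ H] {P : H →L[ℝ] H}
    (hP : IsPr P) (ξ : H) : ‖P ξ‖ ≤ ‖ξ‖ := by
  have h1 : ‖P ξ‖ ^ 2 = inner ℝ ξ (P ξ) := by
    rw [← real_inner_self_eq_norm_sq, hP.symm, hP.idem]
  have h2 : inner ℝ ξ (P ξ) ≤ ‖ξ‖ * ‖P ξ‖ := real_inner_le_norm _ _
  rcases (norm_nonneg (P ξ)).eq_or_lt with h | h
  · rw [← h]; exact norm_nonneg _
  · have h3 : ‖P ξ‖ * ‖P ξ‖ ≤ ‖ξ‖ * ‖P ξ‖ := by rw [← sq, h1]; exact h2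
    exact le_of_mul_le_mul_right h3 h

/-! ### The operator `Φ₀` -/

section phi

variable {k : ℕ} {L : Fin (k + 1) → Type} [∀ j, Group (L j)] {S : Type} [Group S]
  (π : S →* ∀ j, L j) {I : Type} (P : L2 (I × (∀ j, L j)) →L[ℝ] L2 (I × (∀ j, L j)))
  (Ev : (∀ j, L j) → (L2 (I × (∀ j, L j)) →L[ℝ] L2 (∀ j, L j)))

/-- the operator `u ↦ ev (cup w_u) v` -/
noncomputable def Aop (v : BC S (k + 1)) : L2 (I × (∀ j, L j)) →L[ℝ] L2 (∀ j, L j) :=
  ev (cup (k + 1) (fun t : Fin (k + 1) → S => (Ev (fun j => π (t j) j)).comp P)) v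

theorem Aop_apply (v : BC S (k + 1)) (u : L2 (I × (∀ j, L j))) :
    Aop π P Ev v u = ev (cup (k + 1) (wS π (fun y => Ev y (P u)))) v := by
  have h := ev_cup_map (evalAt (Ω' := ∀ j, L j) u)
    (fun t : Fin (k + 1) → S => (Ev (fun j => π (t j) j)).comp P) v
  exact h.symm

theorem Aop_rm (hP : Eqv (rmX I (∀ j, L j)) (rmX I (∀ j, L j)) P)
    (hE : ∀ y, Eqv (rmX I (∀ j, L j)) (rmP (∀ j, L j)) (Ev y)) (v : BC S (k + 1))
    (g : ∀ j, L j) (u : L2 (I × (∀ j, L j))) :
    Aop π P Ev v (tr (rmX I (∀ j, L j) g) u) = rm g (Aop π P Ev v u) := by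
  rw [Aop_apply, Aop_apply]
  have h := ev_cup_map (toAH (rm g : L2 (∀ j, L j) →L[ℝ] L2 (∀ j, L j)))
    (wS π (fun y => Ev y (P u))) v
  have h2 : (fun t => toAH (rm g : L2 (∀ j, L j) →L[ℝ] L2 (∀ j, L j))
      (wS π (fun y => Ev y (P u)) t)) = wS π (fun y => Ev y (P (tr (rmX I (∀ j, L j) g) u))) := by
    funext t
    show rm g (Ev _ (P u)) = Ev _ (P (tr (rmX I (∀ j, L j) g) u))
    rw [hP, hE]
    rfl
  rw [h2] at h
  exact h

/-- restriction to the image -/
noncomputable def pr (π : S →* ∀ j, L j) : L2 (∀ j, L j) →L[ℝ] L2 π.range :=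
  pull (Subtype.val : π.range → ∀ j, L j) Subtype.val_injective

theorem pr_rm (t : π.range) (ξ : L2 (∀ j, L j)) :
    pr π (rm (t : ∀ j, L j) ξ) = rm t (pr π ξ) := by
  ext s
  show rm (t : ∀ j, L j) ξ (s : ∀ j, L j) = rm t (pr π ξ) s
  rw [rm_apply, rm_apply]
  rfl

variable {Y : Type} [Fintype Y] (fy : Y → BC S (k + 1))

/-- the operator `Φ₀` -/
noncomputable def Phi : L2 (I × (∀ j, L j)) →L[ℝ] L2 (Y × π.range) :=
  ∑ y, (ic y).comp ((pr π).comp (Aop π P Ev (fy y)))

theorem Phi_apply (u : L2 (I × (∀ j, L j))) :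
    Phi π P Ev fy u = ∑ y, ic y (pr π (Aop π P Ev (fy y) u)) := by
  unfold Phi
  rw [ContinuousLinearMap.sum_apply]
  rfl

theorem co_sum_ic {T : Type} [Group T] (ζ : Y → L2 T) (y : Y) :
    co y (∑ y', ic y' (ζ y')) = ζ y := by
  classical
  rw [map_sum]
  simp only [co_ic]
  simp

theorem Phi_eqv (hP : Eqv (rmX I (∀ j, L j)) (rmX I (∀ j, L j)) P)
    (hE : ∀ y, Eqv (rmX I (∀ j, L j)) (rmP (∀ j, L j)) (Ev y)) :
    Eqv ((rmX I (∀ j, L j)).comp π.range.subtype) (rmX Y π.range) (Phi π P Ev fy) := by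
  intro t u
  rw [Phi_apply, Phi_apply, map_sum]
  refine Finset.sum_congr rfl fun y _ => ?_
  rw [← ic_rm, ← pr_rm]
  congr 2
  exact Aop_rm π P Ev hP hE (fy y) t u

/-- the boundaries -/
noncomputable def Bdm {Y' : Type} (d : Y → (Y' →₀ MonoidAlgebra ℤ S)) :
    (Y' → L2 π.range) →ₗ[ℝ] L2 (Y × π.range) where
  toFun b := ∑ y, ic y (ext ((lmP π.range).comp π.rangeRestrict) b (d y))
  map_add' b b' := by
    rw [← Finset.sum_add_distrib]
    refine Finset.sum_congr rfl fun y _ => ?_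
    rw [ext_add, map_add]
  map_smul' c b := by
    rw [RingHom.id_apply, Finset.smul_sum]
    refine Finset.sum_congr rfl fun y _ => ?_
    rw [ext_smul, map_smul]

theorem Bdm_rm {Y' : Type} (d : Y → (Y' →₀ MonoidAlgebra ℤ S)) (t : π.range)
    (b : Y' → L2 π.range) :
    tr (rmX Y π.range t) (Bdm π d b) = Bdm π d (fun y => rm t (b y)) := by
  show tr (rmX Y π.range t) (∑ y, ic y (ext ((lmP π.range).comp π.rangeRestrict) b (d y))) =
    ∑ y, ic y (ext ((lmP π.range).comp π.rangeRestrict) (fun y => rm t (b y)) (d y))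
  rw [map_sum]
  refine Finset.sum_congr rfl fun y _ => ?_
  rw [← ic_rm, ext_comm]
  intro s ξ
  exact (lm_rm (π.rangeRestrict s) t ξ).symm

end phi

/-- Module VSL2. -/
theorem vsl2 (hDim : DimStatement) (hProj : ProjStatement) (hPair : PairStatement)
    (hRed : RedStatement) (hWsp : WspStatement) (hBar : BarfpStatement) (hI1 : Inj1Statement)
    (hI2 : Inj2Statement) (hOrt : OrtStatement) : Vsl2Statement := by
  intro k L _ S _ π N hN hNe hFG hFRF hNA ν hν hνc hFP
  classical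
  -- generators
  have hgen : ∀ j, ∃ (r : ℕ) (x : Fin r → L j), Subgroup.closure (Set.range x) = ⊤ := by
    intro j
    obtain ⟨s, hs, hsf⟩ := Group.fg_iff.1 (hFG j)
    obtain ⟨r, x, hx⟩ := hsf.fin_embedding
    exact ⟨r, x, by rw [hx]; exact hs⟩
  choose r x hx using hgen
  have hpair : ∀ j, ∃ a ∈ N j, ∃ b ∈ N j, FreePair a b :=
    fun j => hPair (L j) (hFRF j) (hNA j) (N j) (hN j) (hNe j)
  have hder : ∀ j, ∃ δ : L j → L2 (L j), Der δ ∧ (∃ g, δ g ≠ 0) ∧
      ∀ ξ : L2 (L j), ∑ i, inner ℝ (δ (x j i)) (lm (x j i) ξ - ξ) = 0 :=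
    fun j => hRed (L j) (r j) (x j) (hx j) (hFRF j) (hNA j)
  obtain ⟨P, Ev, hPpr, hPe, hEe, hPu, i0, hi0⟩ := hWsp (k + 1) L r x hx hder
  obtain ⟨B⟩ := hBar S k hFP
  haveI := B.finY
  haveI : Fintype B.Y := Fintype.ofFinite _
  -- the projection to the boundaries
  set fy : B.Y → BC S (k + 1) := fun y => B.f (single y 1) with hfy
  set d : B.Y → (B.Y' →₀ MonoidAlgebra ℤ S) := fun y => B.dd (single y 1) with hd
  set W : Submodule ℝ (L2 (B.Y × π.range)) := (LinearMap.range (Bdm π d)).topologicalClosure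
    with hW
  have hWc : IsClosed (W : Set (L2 (B.Y × π.range))) := Submodule.isClosed_topologicalClosure _
  have hWi : ∀ t, ∀ ξ ∈ W, tr (rmX B.Y π.range t) ξ ∈ W := by
    intro t ξ hξ
    have h1 : Set.MapsTo (tr (rmX B.Y π.range t))
        ((LinearMap.range (Bdm π d) : Submodule ℝ (L2 (B.Y × π.range))) :
          Set (L2 (B.Y × π.range)))
        ((LinearMap.range (Bdm π d) : Submodule ℝ (L2 (B.Y × π.range))) :
          Set (L2 (B.Y × π.range))) := by
      rintro _ ⟨b, rfl⟩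
      exact ⟨fun y => rm t (b y), (Bdm_rm π d t b).symm⟩
    exact h1.closure (tr (rmX B.Y π.range t)).continuous hξ
  obtain ⟨PB, hPB, hPBW, hPBe⟩ := hProj.1 π.range (B.Y × π.range) (rmX B.Y π.range) W hWc hWi
  set P' : L2 (B.Y × π.range) →L[ℝ] L2 (B.Y × π.range) :=
    ContinuousLinearMap.id ℝ _ - PB with hP'
  have hP'a : ∀ ξ, P' ξ = ξ - PB ξ := fun ξ => rfl
  have hP'pr : IsPr P' := by
    constructor
    · intro ξ
      rw [hP'a, hP'a, map_sub, hPB.idem]
      abel
    · intro ξ η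
      rw [hP'a, hP'a, inner_sub_left, inner_sub_right, hPB.symm]
  have hP'e : Eqv (rmX B.Y π.range) (rmX B.Y π.range) P' := by
    intro t ξ
    rw [hP'a, hP'a, hPBe, map_sub]
  set A : L2 ((∀ j, Fin (r j)) × (∀ j, L j)) →L[ℝ] L2 (B.Y × π.range) :=
    P'.comp (Phi π P Ev fy) with hA
  have hAe : Eqv ((rmX (∀ j, Fin (r j)) (∀ j, L j)).comp π.range.subtype) (rmX B.Y π.range) A := by
    intro t u
    show P' (Phi π P Ev fy _) = tr (rmX B.Y π.range t) (P' (Phi π P Ev fy u))
    rw [Phi_eqv π P Ev fy hPe hEe t u, hP'e]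
  -- injectivity
  have hinj : ∀ ξ, A (P ξ) = 0 → P ξ = 0 := by
    intro ξ hAξ
    set u := P ξ with hu
    have hPuu : P u = u := hPpr.idem ξ
    obtain ⟨hMD, hval, hOr⟩ := hPu u hPuu
    have h1 : Phi π P Ev fy u ∈ W := by
      rw [← hPBW]
      have h2 : P' (Phi π P Ev fy u) = 0 := hAξ
      rw [hP'a, sub_eq_zero] at h2
      exact h2.symm
    have h2 : Phi π P Ev fy u ∈ closure ((LinearMap.range (Bdm π d) :
        Submodule ℝ (L2 (B.Y × π.range))) : Set (L2 (B.Y × π.range))) := h1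
    obtain ⟨s, hs, hlim⟩ := mem_closure_iff_seq_limit.1 h2
    choose b hb using hs
    have h3 := hI1 k L S π N hpair ν hν hνc B (fun y => Ev y u) hMD b (by
      intro y
      have h4 : ∀ i, co y (s i) = ext ((lmP π.range).comp π.rangeRestrict) (b i)
          (B.dd (single y 1)) := by
        intro i
        rw [← hb i]
        exact co_sum_ic (fun y => ext ((lmP π.range).comp π.rangeRestrict) (b i) (d y)) y
      have h5 : co y (Phi π P Ev fy u) = pull (Subtype.val : π.range → ∀ j, L j)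
          Subtype.val_injective (ev (cup (k + 1) (wS π (fun y => Ev y u)))
            (B.f (single y 1))) := by
        rw [Phi_apply, co_sum_ic, Aop_apply, hPuu]
        rfl
      rw [← h5]
      have h6 := ((co y : L2 (B.Y × π.range) →L[ℝ] L2 π.range).continuous.tendsto
        (Phi π P Ev fy u)).comp hlim
      refine h6.congr fun i => ?_
      exact h4 i)
    have h4 := hI2 (k + 1) L N hN hpair (fun y => Ev y u) hMD h3
    exact hOrt (k + 1) L r x (fun y => Ev y u) u h4 hval hOr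
  -- the dimension inequality
  have hfree : FreeAct ((rmX (∀ j, Fin (r j)) (∀ j, L j)).comp π.range.subtype) := by
    intro t ω h
    have h1 : (ω.1, ω.2 * (t : ∀ j, L j)⁻¹) = ω := h
    have h2 : ω.2 * (t : ∀ j, L j)⁻¹ = ω.2 := (Prod.ext_iff.1 h1).2
    have h3 : (t : ∀ j, L j)⁻¹ = 1 := by simpa using h2
    exact Subtype.ext (inv_eq_one.1 h3)
  set YY : Finset (B.Y × π.range) := Finset.univ.image (fun y => (y, 1)) with hYY
  have hcov : ∀ ω' : B.Y × π.range, ∃ t, ∃ y ∈ YY, rmX B.Y π.range t y = ω' := by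
    intro ω'
    refine ⟨ω'.2⁻¹, (ω'.1, 1), Finset.mem_image.2 ⟨ω'.1, Finset.mem_univ _, rfl⟩, ?_⟩
    show (ω'.1, 1 * (ω'.2⁻¹)⁻¹) = ω'
    simp
  have hdim := hDim π.range ((∀ j, Fin (r j)) × (∀ j, L j)) (B.Y × π.range)
    ((rmX (∀ j, Fin (r j)) (∀ j, L j)).comp π.range.subtype) (rmX B.Y π.range) hfree YY hcov
    A P P' hPpr hP'pr hAe (fun t ξ => hPe (t : ∀ j, L j) ξ) hP'e (fun ξ => hP'pr.idem _) hinj
  set c : ℝ := ∑ i : (∀ j, Fin (r j)), ‖P (bv (i, (1 : ∀ j, L j)))‖ ^ 2 with hc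
  have hcpos : 0 < c := by
    refine lt_of_lt_of_le ?_ (Finset.single_le_sum (f := fun i : (∀ j, Fin (r j)) =>
      ‖P (bv (i, (1 : ∀ j, L j)))‖ ^ 2) (fun i _ => sq_nonneg _) (Finset.mem_univ i0))
    exact pow_pos (norm_pos_iff.2 hi0) 2
  have hbound : ∑ y ∈ YY, ‖P' (bv y)‖ ^ 2 ≤ Fintype.card B.Y := by
    calc ∑ y ∈ YY, ‖P' (bv y)‖ ^ 2 ≤ ∑ y ∈ YY, (1 : ℝ) := by
          refine Finset.sum_le_sum fun y _ => ?_
          have h1 := norm_pr_le hP'pr (bv y)
          rw [norm_bv] at h1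
          exact pow_le_one₀ (norm_nonneg _) h1
      _ = YY.card := by simp
      _ ≤ Fintype.card B.Y := by
          exact_mod_cast Finset.card_image_le
  have hPbv : ∀ (i : ∀ j, Fin (r j)) (g : ∀ j, L j),
      ‖P (bv (i, g))‖ = ‖P (bv (i, (1 : ∀ j, L j)))‖ := by
    intro i g
    have h1 : (bv (i, g) : L2 ((∀ j, Fin (r j)) × (∀ j, L j))) =
        tr (rmX (∀ j, Fin (r j)) (∀ j, L j) g⁻¹) (bv (i, 1)) := by
      rw [tr_bv]
      congr 1
      show (i, g) = (i, 1 * (g⁻¹)⁻¹)
      simp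
    rw [h1, hPe, norm_tr]
  -- finite index
  by_contra hfin
  have hinf : Infinite ((∀ j, L j) ⧸ π.range) := by
    by_contra h
    rw [not_infinite_iff_finite] at h
    exact hfin (Subgroup.finiteIndex_of_finite_quotient)
  obtain ⟨m, hm⟩ := exists_nat_gt ((Fintype.card B.Y : ℝ) / c)
  obtain ⟨Q, hQ⟩ := Infinite.exists_subset_card_eq ((∀ j, L j) ⧸ π.range) m
  set F : Finset ((∀ j, Fin (r j)) × (∀ j, L j)) :=
    (Finset.univ ×ˢ Q).image (fun p => (p.1, Quotient.out p.2)) with hF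
  have hFinj : Function.Injective (fun p : (∀ j, Fin (r j)) × ((∀ j, L j) ⧸ π.range) =>
      ((p.1, Quotient.out p.2) : (∀ j, Fin (r j)) × (∀ j, L j))) := by
    intro p p' h
    have h1 := Prod.ext_iff.1 h
    refine Prod.ext h1.1 ?_
    have h2 : Quotient.out p.2 = Quotient.out p'.2 := h1.2
    exact Quotient.out_injective h2
  have hFd : DiffOrb ((rmX (∀ j, Fin (r j)) (∀ j, L j)).comp π.range.subtype) F := by
    intro ω hω ω' hω' t h
    obtain ⟨p, hp, rfl⟩ := Finset.mem_image.1 hω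
    obtain ⟨p', hp', rfl⟩ := Finset.mem_image.1 hω'
    have h1 : (p.1, Quotient.out p.2 * (t : ∀ j, L j)⁻¹) = (p'.1, Quotient.out p'.2) := h
    have h2 := Prod.ext_iff.1 h1
    have h3 : p.2 = p'.2 := by
      rw [← QuotientGroup.out_eq' p.2, ← QuotientGroup.out_eq' p'.2]
      apply QuotientGroup.eq.2
      have h4 : Quotient.out p.2 * (t : ∀ j, L j)⁻¹ = Quotient.out p'.2 := h2.2
      rw [← h4, ← mul_assoc, inv_mul_cancel, one_mul]
      exact π.range.inv_mem t.2
    have h5 : p = p' := Prod.ext h2.1 h3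
    rw [h5]
  have hmain := hdim F hFd
  have hsum : ∑ ω ∈ F, ‖P (bv ω)‖ ^ 2 = m * c := by
    rw [hF, Finset.sum_image (fun p _ p' _ h => hFinj h), Finset.sum_product]
    simp only [hPbv]
    rw [hc, Finset.mul_sum]
    refine Finset.sum_congr rfl fun i _ => ?_
    rw [Finset.sum_const, hQ]
    simp
  rw [hsum] at hmain
  have h1 : (m : ℝ) * c ≤ Fintype.card B.Y := hmain.trans hbound
  rw [div_lt_iff₀ hcpos] at hm
  linarith

end Pool.Agent.Lib.MP_b1a3a4_al.MVS.LG.H57
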